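import Pool.Agent.H92.BF.Targets

/-!
# MP_70ba79_ag: the degree of the image of a curve in the plane
-/

set_option autoImplicit false

namespace Pool.Agent.H64.BF

open MvPolynomial SC Pool.Agent.H27.LV Pool.Agent.H92.BF

section

variable {k K : Type} [Field k] [Field K] [Algebra k K] (v : DV k K)

/-- the functions of order at least `s` -/
def geS (s : ℤ) : Submodule k K where
  carrier := {z | ge v s z}
  add_mem' := fun h1 h2 => ge.add h1 h2
  zero_mem' := ge_zero v s
  smul_mem' := fun c z hz => by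
    have h := (ge_const v c).mul (show ge v s z from hz)
    rw [zero_add] at h
    change ge v s (c • z)
    rwa [Algebra.smul_def]

theorem mem_geS (s : ℤ) (z : K) : z ∈ geS v s ↔ ge v s z := Iff.rfl

theorem nn (s : ℤ) {z : K} (hz : ge v s z) : 0 ≤ v.ord (z * v.unif ^ (-s)) := by
  rcases hz with rfl | h
  · rw [zero_mul, v.ord_zero]
  · by_cases h0 : z = 0
    · rw [h0, zero_mul, v.ord_zero]
    · rw [v.ord_mul' h0 (v.unif_zpow_ne_zero _), v.ord_unif_zpow]
      omega

/-- the leading coefficient -/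
noncomputable def lc (s : ℤ) : geS v s →ₗ[k] v.Res where
  toFun z := v.red (z.1 * v.unif ^ (-s))
  map_add' a b := by
    rw [← v.red_add (nn v s a.2) (nn v s b.2)]
    congr 1
    change (a.1 + b.1) * _ = _
    ring
  map_smul' c a := by
    rw [RingHom.id_apply, ← v.red_smul c (nn v s a.2)]
    congr 1
    change (c • a.1) * _ = _
    rw [smul_mul_assoc]

theorem lc_zero (s : ℤ) (z : geS v s) (h : lc v s z = 0) : ge v (s + 1) z.1 := by
  have h1 : v.red (z.1 * v.unif ^ (-s)) = 0 := h
  rw [v.red_eq_zero_iff (nn v s z.2)] at h1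
  by_cases h0 : z.1 = 0
  · exact Or.inl h0
  right
  rcases h1 with h1 | h1
  · exact absurd h1 (mul_ne_zero h0 (v.unif_zpow_ne_zero _))
  · rw [v.ord_mul' h0 (v.unif_zpow_ne_zero _), v.ord_unif_zpow] at h1
    omega

theorem codim {W : Type} [AddCommGroup W] [Module k W] [FiniteDimensional k W]
    [FiniteDimensional k v.Res] (hd : v.deg = 1) (Φ : W →ₗ[k] K) (s : ℤ) :
    Module.finrank k ((geS v s).comap Φ) ≤ Module.finrank k ((geS v (s + 1)).comap Φ) + 1 := by
  let r : ((geS v s).comap Φ) →ₗ[k] geS v s :=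
    (Φ.comp ((geS v s).comap Φ).subtype).codRestrict (geS v s) fun z => z.2
  let ψ : ((geS v s).comap Φ) →ₗ[k] v.Res := (lc v s).comp r
  have h1 := LinearMap.finrank_range_add_finrank_ker ψ
  have h2 : Module.finrank k (LinearMap.range ψ) ≤ 1 := by
    have := Submodule.finrank_le (LinearMap.range ψ)
    have e : Module.finrank k v.Res = 1 := hd
    omega
  have h3 : Module.finrank k (LinearMap.ker ψ) ≤
      Module.finrank k ((geS v (s + 1)).comap Φ) := by
    rw [← Submodule.finrank_map_subtype_eq]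
    apply Submodule.finrank_mono
    rintro _ ⟨z, hz, rfl⟩
    exact lc_zero v s (r z) hz
  omega

theorem codim' {W : Type} [AddCommGroup W] [Module k W] [FiniteDimensional k W]
    [FiniteDimensional k v.Res] (hd : v.deg = 1) (Φ : W →ₗ[k] K) (s : ℤ) (j : ℕ) :
    Module.finrank k ((geS v s).comap Φ) ≤ Module.finrank k ((geS v (s + j)).comap Φ) + j := by
  induction j with
  | zero =>
    have e : s + ((0 : ℕ) : ℤ) = s := by simp
    rw [e]
    exact Nat.le_add_right _ _
  | succ j ih =>
    have h := codim v hd Φ (s + j)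
    have e : s + ((j + 1 : ℕ) : ℤ) = s + j + 1 := by push_cast; ring
    rw [e]
    omega

theorem ge_pow {s : ℤ} {z : K} (hz : ge v s z) (n : ℕ) : ge v (n * s) (z ^ n) := by
  induction n with
  | zero => simpa using ge_one v
  | succ n ih =>
    rw [pow_succ]
    have h := ih.mul hz
    refine ge.mono h ?_
    push_cast
    linarith

end

section

variable (N : ℕ)

/-- the monomials -/
abbrev Tm : Type := Σ i : Fin (N + 1), Fin (i.1 + 1)

/-- the exponents -/
noncomputable def ex (t : Tm N) : Fin 2 →₀ ℕ :=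
  Finsupp.single 0 (t.1.1 - t.2.1) + Finsupp.single 1 t.2.1

theorem ex_zero (t : Tm N) : ex N t 0 = t.1.1 - t.2.1 := by
  simp [ex]

theorem ex_one (t : Tm N) : ex N t 1 = t.2.1 := by
  simp [ex]

theorem ex_inj : Function.Injective (ex N) := by
  rintro ⟨i, j⟩ ⟨i', j'⟩ h
  have h0 := DFunLike.congr_fun h 0
  have h1 := DFunLike.congr_fun h 1
  rw [ex_zero, ex_zero] at h0
  rw [ex_one, ex_one] at h1
  simp only at h0 h1
  have h2 : i = i' := by
    apply Fin.ext
    have := j.2
    have := j'.2
    omega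
  subst h2
  have h3 : j = j' := Fin.ext h1
  rw [h3]

theorem card_Tm : Fintype.card (Tm N) * 2 = (N + 1) * (N + 2) := by
  rw [Fintype.card_sigma]
  simp only [Fintype.card_fin]
  rw [Fin.sum_univ_eq_sum_range (fun i => i + 1) (N + 1)]
  induction N with
  | zero => simp
  | succ n ih =>
    rw [Finset.sum_range_succ, add_mul, ih]
    ring

end

theorem pf_IMG : T_IMG := by
  intro k K _ _ _ _ _ _ htr x
  by_cases hc : x 0 ∈ Set.range (algebraMap k K)
  · obtain ⟨c, hc⟩ := hc
    refine ⟨X 0 - C c, ?_, ?_, ?_⟩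
    · intro h
      have h1 := congrArg (fun P => MvPolynomial.eval (fun _ => c + 1) P) h
      simp at h1
    · refine (totalDegree_sub _ _).trans ?_
      rw [totalDegree_X, totalDegree_C]
      simp
    · rw [map_sub, aeval_X, aeval_C, hc, sub_self]
  have hzt : Transcendental k (x 0) := by
    intro halg
    apply hc
    have h1 : (minpoly k (x 0)).degree = 1 := IsAlgClosed.degree_eq_one_of_irreducible k
      (minpoly.irreducible halg.isIntegral)
    exact minpoly.mem_range_of_degree_eq_one k (x 0) h1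
  obtain ⟨v0⟩ : Nonempty (DV k K) := by
    have hfd := Pool.Agent.H36.SC.fin_of_transc htr hzt
    obtain ⟨-, -, h⟩ := Pool.Agent.H76.KN.v5 k K (x 0) hzt hfd
    by_contra hcon
    rw [not_nonempty_iff] at hcon
    rw [finsum_of_isEmpty] at h
    have h1 : 0 < Module.finrank (IntermediateField.adjoin k {x 0}) K := Module.finrank_pos
    omega
  set h := deg k x with hh
  set N := 2 * h + 1 with hN
  have hfin : Module.Finite k v0.Res := Pool.Agent.H36.SC.v6a Pool.Agent.H76.KN.v5 k K htr v0
  let mt : Tm N → K := fun t => x 0 ^ (t.1.1 - t.2.1) * x 1 ^ t.2.1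
  let Φ : (Tm N → k) →ₗ[k] K := Fintype.linearCombination k mt
  have hΦ : ∀ c, Φ c = ∑ t, c t • mt t := fun c => Fintype.linearCombination_apply k mt c
  have hpo : ∀ (v : DV k K) (i : Fin 2), ge v (-(poleOrder v x : ℤ)) (x i) := by
    intro v i
    right
    have h1 : (-(v.ord (x i))).toNat ≤ poleOrder v x :=
      Finset.le_sup (f := fun i => (-(v.ord (x i))).toNat) (Finset.mem_univ i)
    omega
  have hge : ∀ (v : DV k K) (c : Tm N → k), ge v (-(N * poleOrder v x : ℤ)) (Φ c) := by
    intro v c
    rw [hΦ]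
    apply ge_sum
    intro t _
    have h1 := (ge_const v (c t)).mul
      ((ge_pow v (hpo v 0) (t.1.1 - t.2.1)).mul (ge_pow v (hpo v 1) t.2.1))
    rw [Algebra.smul_def]
    refine ge.mono h1 ?_
    have h2 : t.2.1 ≤ t.1.1 := by
      have := t.2.2
      omega
    have h3 : t.1.1 ≤ N := by
      have := t.1.2
      omega
    have h4 : ((t.1.1 - t.2.1 : ℕ) : ℤ) = (t.1.1 : ℤ) - t.2.1 := by
      push_cast [h2]
      ring
    rw [h4]
    have h5 : (0 : ℤ) ≤ poleOrder v x := by positivity
    have h6 : (t.1.1 : ℤ) ≤ N := by exact_mod_cast h3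
    nlinarith
  have htop : (geS v0 (-(N * poleOrder v0 x : ℤ))).comap Φ = ⊤ := by
    rw [eq_top_iff]
    intro c _
    exact hge v0 c
  have hcd := codim' v0 (rat k K htr v0).1 Φ (-(N * poleOrder v0 x : ℤ)) (N * h + 1)
  rw [htop, finrank_top, Module.finrank_fintype_fun_eq_card] at hcd
  have hcard := card_Tm N
  have hpos : 0 < Module.finrank k
      ((geS v0 (-(N * poleOrder v0 x : ℤ) + ((N * h + 1 : ℕ) : ℤ))).comap Φ) := by
    have h1 : 2 * (N * h + 1) < (N + 1) * (N + 2) := by
      rw [hN]
      nlinarith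
    omega
  obtain ⟨c, hc1, hc0⟩ : ∃ c ∈ (geS v0 (-(N * poleOrder v0 x : ℤ) +
      ((N * h + 1 : ℕ) : ℤ))).comap Φ, c ≠ 0 := by
    apply Submodule.exists_mem_ne_zero_of_ne_bot
    intro h0
    rw [h0, finrank_bot] at hpos
    exact absurd hpos (lt_irrefl _)
  have hΦ0 : Φ c = 0 := by
    by_contra hne
    obtain ⟨hf1, hf2⟩ := pfm k K htr (Φ c)
    have hf3 := pfi k K htr (Fin 2) x
    have hf4 : {v : DV k K | (N * poleOrder v x : ℤ) ≠ 0}.Finite := by
      refine hf3.subset fun v hv => ?_
      simp only [Set.mem_ofPred_eq] at hv ⊢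
      intro h0
      apply hv
      rw [h0]
      simp
    have hs : ∑ᶠ v : DV k K, (v.ord (Φ c) + N * poleOrder v x : ℤ) = N * h := by
      rw [finsum_add_distrib hf1 hf4, hf2, zero_add, ← mul_finsum, hh, cast_deg htr]
    have hle := single_le_finsum v0 (f := fun v : DV k K => (v.ord (Φ c) + N * poleOrder v x : ℤ))
      ((hf1.union hf4).subset (Function.support_add _ _)) fun v => by
        have h1 := (hge v c).resolve_left hne
        linarith
    rw [hs] at hle
    have h2 : ge v0 (-(N * poleOrder v0 x : ℤ) + ((N * h + 1 : ℕ) : ℤ)) (Φ c) := hc1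
    have h3 := h2.resolve_left hne
    push_cast at h3
    linarith
  refine ⟨∑ t, monomial (ex N t) (c t), ?_, ?_, ?_⟩
  · intro h0
    apply hc0
    funext t
    have h1 := congrArg (coeff (ex N t)) h0
    rw [coeff_sum, coeff_zero] at h1
    simp only [coeff_monomial, (ex_inj N).eq_iff, Finset.sum_ite_eq', Finset.mem_univ,
      if_true] at h1
    exact h1
  · refine totalDegree_finsetSum_le fun t _ => (totalDegree_monomial_le _ _).trans ?_
    rw [Finsupp.sum_fintype _ _ (fun _ => rfl), Fin.sum_univ_two, ex_zero, ex_one]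
    have h1 := t.2.2
    have h2 := t.1.2
    simp only [id]
    omega
  · rw [map_sum, ← hΦ0, hΦ]
    refine Finset.sum_congr rfl fun t _ => ?_
    rw [aeval_monomial, Finsupp.prod_fintype _ _ (fun _ => pow_zero _), Fin.prod_univ_two,
      ex_zero, ex_one, Algebra.smul_def]

end Pool.Agent.H64.BF
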