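import Pool.Agent.H92.BF.Targets

/-!
# MP_70ba79_ag: minimal polynomials of the solutions of linear differential equations of order one
-/

set_option autoImplicit false
set_option linter.unusedSectionVars false

namespace Pool.Agent.H64.BF

open MvPolynomial SC Pool.Agent.H27.LV Pool.Agent.H92.BF

section

variable {k K : Type} [Field k] [CharZero k] [Field K] [Algebra k K] (δ : Derivation k K K) (r : K)

/-- `r` is transcendental -/
theorem r_transc (hr : δ r = 1) : Transcendental k r := by
  intro halg
  have hint : IsIntegral k r := halg.isIntegral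
  have hsep : (minpoly k r).Separable := (minpoly.irreducible hint).separable
  have h1 := δ.map_aeval (minpoly k r) r
  rw [minpoly.aeval, map_zero, hr, smul_eq_mul, mul_one] at h1
  exact hsep.aeval_derivative_ne_zero (minpoly.aeval k r) h1.symm

theorem mem_L (hr : δ r = 1) : ∀ l ∈ IntermediateField.adjoin k {r},
    δ l ∈ IntermediateField.adjoin k {r} := by
  intro l hl
  induction hl using IntermediateField.adjoin_induction with
  | mem y hy =>
    rw [Set.mem_singleton_iff] at hy
    rw [hy, hr]
    exact one_mem _
  | algebraMap y =>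
    rw [δ.map_algebraMap]
    exact zero_mem _
  | add y z _ _ h1 h2 =>
    rw [map_add]
    exact add_mem h1 h2
  | inv y hy h1 =>
    rw [δ.leibniz_inv, smul_eq_mul]
    exact mul_mem (neg_mem (pow_mem (inv_mem hy) 2)) h1
  | mul y z hy hz h1 h2 =>
    rw [δ.leibniz, smul_eq_mul, smul_eq_mul]
    exact add_mem (mul_mem hy h2) (mul_mem hz h1)

theorem ev_mem (P : Polynomial k) :
    Polynomial.aeval r P ∈ IntermediateField.adjoin k {r} :=
  IntermediateField.algebra_adjoin_le_adjoin k {r}
    (Polynomial.aeval_mem_adjoin_singleton k r)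

/-- polynomials of degree at most `N` which vanish at `s` are multiples of the minimal polynomial -/
theorem min_mul {L : Type} [Field L] [Algebra L K] (s : K) (hs : IsIntegral L s) (q : Polynomial L)
    (hq : q.natDegree ≤ (minpoly L s).natDegree) (h0 : Polynomial.aeval s q = 0) (i : ℕ) :
    q.coeff i = q.coeff (minpoly L s).natDegree * (minpoly L s).coeff i := by
  have hmon : (minpoly L s).Monic := minpoly.monic hs
  have h1 : q - Polynomial.C (q.coeff (minpoly L s).natDegree) * (minpoly L s) = 0 := by
    by_contra hne
    have h2 : Polynomial.aeval s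
        (q - Polynomial.C (q.coeff (minpoly L s).natDegree) * (minpoly L s)) = 0 := by
      rw [map_sub, map_mul, h0, minpoly.aeval, mul_zero, sub_zero]
    have h3 := minpoly.degree_le_of_ne_zero L s hne h2
    rw [Polynomial.degree_eq_natDegree hmon.ne_zero] at h3
    refine absurd h3 (not_le.2 ?_)
    rw [Polynomial.degree_lt_iff_coeff_zero]
    intro m hm
    rw [Polynomial.coeff_sub, Polynomial.coeff_C_mul]
    rcases eq_or_lt_of_le hm with h4 | h4
    · rw [← h4]
      have h5 : (minpoly L s).coeff (minpoly L s).natDegree = 1 := hmon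
      rw [h5, mul_one, sub_self]
    · rw [Polynomial.coeff_eq_zero_of_natDegree_lt (lt_of_le_of_lt hq h4),
        Polynomial.coeff_eq_zero_of_natDegree_lt h4, mul_zero, sub_zero]
  have h4 := congrArg (fun f => Polynomial.coeff f i) h1
  simp only [Polynomial.coeff_sub, Polynomial.coeff_C_mul, Polynomial.coeff_zero] at h4
  exact sub_eq_zero.1 h4

/-- the relations between the coefficients of the minimal polynomial -/
theorem coeff_rel {L : Type} [Field L] [Algebra L K] (s : K) (hs : IsIntegral L s) (D : L → L)
    (hD : ∀ l, algebraMap L K (D l) = δ (algebraMap L K l)) (v α β : L)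
    (h : δ s * algebraMap L K v = algebraMap L K α * s + algebraMap L K β) (i : ℕ)
    (hi : i ≤ (minpoly L s).natDegree) :
    v * D ((minpoly L s).coeff i) + i * α * (minpoly L s).coeff i +
      (i + 1) * β * (minpoly L s).coeff (i + 1) =
      (minpoly L s).natDegree * α * (minpoly L s).coeff i := by
  set p := minpoly L s with hp
  set N := p.natDegree with hN
  have hmon : p.Monic := minpoly.monic hs
  have hD1 : D 1 = 0 := by
    apply (algebraMap L K).injective
    rw [hD, map_one, δ.map_one_eq_zero, map_zero]
  let c : ℕ → L := fun i => v * D (p.coeff i) + i * α * p.coeff i + (i + 1) * β * p.coeff (i + 1)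
  let q : Polynomial L := ∑ i ∈ Finset.range (N + 1), Polynomial.monomial i (c i)
  have hqc : ∀ j, j ≤ N → q.coeff j = c j := by
    intro j hj
    simp only [q, Polynomial.finsetSum_coeff, Polynomial.coeff_monomial]
    rw [Finset.sum_ite_eq' (Finset.range (N + 1)) j]
    rw [if_pos (Finset.mem_range.2 (by omega))]
  have hqd : q.natDegree ≤ N := by
    refine Polynomial.natDegree_sum_le_of_forall_le _ _ fun i hi => ?_
    exact (Polynomial.natDegree_monomial_le _).trans (by
      have := Finset.mem_range.1 hi
      omega)
  have hpN1 : p.coeff (N + 1) = 0 := Polynomial.coeff_eq_zero_of_natDegree_lt (by omega)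
  have hpN : p.coeff N = 1 := hmon
  have hq0 : Polynomial.aeval s q = 0 := by
    have h1 : Polynomial.aeval s p = 0 := by rw [hp, minpoly.aeval]
    have h2 := congrArg δ h1
    rw [Polynomial.aeval_eq_sum_range, map_sum, map_zero] at h2
    have h3 : ∀ i, δ (p.coeff i • s ^ i) * algebraMap L K v =
        algebraMap L K (v * D (p.coeff i) + i * α * p.coeff i) * s ^ i +
          algebraMap L K (i * β * p.coeff i) * s ^ (i - 1) := by
      intro i
      rw [Algebra.smul_def, δ.leibniz, δ.leibniz_pow, ← hD, smul_eq_mul, smul_eq_mul,
        smul_eq_mul, nsmul_eq_mul]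
      have h4 : (i : K) * (s ^ (i - 1) * s) = i * s ^ i := by
        rcases Nat.eq_zero_or_pos i with rfl | hi
        · simp
        · rw [← pow_succ, Nat.sub_add_cancel hi]
      simp only [map_add, map_mul, map_natCast]
      calc _ = algebraMap L K (p.coeff i) * (i * (s ^ (i - 1) * (δ s * algebraMap L K v))) +
            s ^ i * (algebraMap L K (D (p.coeff i)) * algebraMap L K v) := by ring
        _ = algebraMap L K (p.coeff i) * (algebraMap L K α * (i * (s ^ (i - 1) * s))) +
            algebraMap L K (p.coeff i) * (i * (s ^ (i - 1) * algebraMap L K β)) +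
            s ^ i * (algebraMap L K (D (p.coeff i)) * algebraMap L K v) := by
              rw [h]
              ring
        _ = _ := by
              rw [h4]
              ring
    have h5 : ∑ i ∈ Finset.range (N + 1), algebraMap L K (i * β * p.coeff i) * s ^ (i - 1) =
        ∑ i ∈ Finset.range (N + 1),
          algebraMap L K ((i + 1) * β * p.coeff (i + 1)) * s ^ i := by
      rw [Finset.sum_range_succ' (fun i => algebraMap L K (i * β * p.coeff i) * s ^ (i - 1)),
        Finset.sum_range_succ (fun i => algebraMap L K ((i + 1) * β * p.coeff (i + 1)) * s ^ i),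
        hpN1]
      simp
    have h6 := congrArg (fun z => z * algebraMap L K v) h2
    simp only [zero_mul, Finset.sum_mul, h3] at h6
    rw [Finset.sum_add_distrib, h5, ← Finset.sum_add_distrib] at h6
    simp only [q, map_sum, Polynomial.aeval_monomial]
    rw [← h6]
    refine Finset.sum_congr rfl fun i _ => ?_
    simp only [c, map_add, map_mul]
    ring
  have h7 := min_mul s hs q hqd hq0 i
  rw [← hp, ← hN, hqc i hi, hqc N le_rfl] at h7
  simp only [c] at h7
  rw [hpN1, hpN, hD1] at h7
  rw [h7]
  ring

end

section

variable {k K : Type} [Field k] [CharZero k] [Field K] [Algebra k K] (δ : Derivation k K K) (r : K)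

/-- from identities at `r` to identities of polynomials -/
theorem ident (hr : δ r = 1) (P Q : Polynomial k)
    (h : Polynomial.aeval r P = Polynomial.aeval r Q) : P = Q :=
  (transcendental_iff_injective.1 (r_transc δ r hr)) h

theorem der_quot (hr : δ r = 1) (A B : Polynomial k) (hB : Polynomial.aeval r B ≠ 0) :
    δ (Polynomial.aeval r A / Polynomial.aeval r B) * Polynomial.aeval r B ^ 2 =
      Polynomial.aeval r (Polynomial.derivative A * B - A * Polynomial.derivative B) := by
  rw [δ.leibniz_div, δ.map_aeval, δ.map_aeval, hr]
  simp only [smul_eq_mul, mul_one, map_sub, map_mul]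
  field_simp

end

theorem pf_MPA : T_MPA := by
  intro k K _ _ _ _ δ r s U V hr hal hV hs h
  have hsi : IsIntegral (IntermediateField.adjoin k {r}) s := (hal.isAlgebraic s).isIntegral
  let D : IntermediateField.adjoin k {r} → IntermediateField.adjoin k {r} :=
    fun l => ⟨δ l, mem_L δ r hr l l.2⟩
  have hrel := coeff_rel δ s hsi D (fun l => rfl) ⟨Polynomial.aeval r V, ev_mem r V⟩
    (-⟨Polynomial.aeval r U, ev_mem r U⟩) 0 (by
      rw [map_neg, map_zero, add_zero]
      change δ s * Polynomial.aeval r V = -Polynomial.aeval r U * s
      rw [h]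
      ring) 0 (Nat.zero_le _)
  set p := minpoly (IntermediateField.adjoin k {r}) s with hp
  have hN : 1 ≤ p.natDegree := minpoly.natDegree_pos hsi
  have hp0 : p.coeff 0 ≠ 0 := minpoly.coeff_zero_ne_zero hsi hs
  obtain ⟨A, B, hAB⟩ := (IntermediateField.mem_adjoin_simple_iff k (p.coeff 0 : K)).1
    (p.coeff 0).2
  have hne : (p.coeff 0 : K) ≠ 0 := fun h0 => hp0 (Subtype.ext h0)
  have hB : Polynomial.aeval r B ≠ 0 := by
    intro h0
    rw [h0, div_zero] at hAB
    exact hne hAB
  have hA : Polynomial.aeval r A ≠ 0 := by
    intro h0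
    rw [h0, zero_div] at hAB
    exact hne hAB
  have h2 : Polynomial.aeval r V * δ (p.coeff 0 : K) =
      (p.natDegree : K) * -Polynomial.aeval r U * (p.coeff 0 : K) := by
    have e2 := congrArg (algebraMap (IntermediateField.adjoin k {r}) K) hrel
    simp only [Nat.cast_zero, zero_mul, mul_zero, add_zero, map_mul, map_neg, map_natCast] at e2
    exact e2
  refine ⟨p.natDegree, A, B, hN, ?_, ?_, ?_⟩
  · rintro rfl
    exact hA (map_zero _)
  · rintro rfl
    exact hB (map_zero _)
  · unfold IdS
    apply ident δ r hr
    have h4 := der_quot δ r hr A B hB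
    rw [← hAB] at h4
    rw [map_mul, ← h4]
    simp only [map_neg, map_mul, map_natCast]
    have h5 : (p.coeff 0 : K) * Polynomial.aeval r B = Polynomial.aeval r A := by
      rw [hAB]
      field_simp
    calc _ = (Polynomial.aeval r V * δ (p.coeff 0 : K)) * Polynomial.aeval r B ^ 2 := by ring
      _ = -(p.natDegree : K) * Polynomial.aeval r U * ((p.coeff 0 : K) * Polynomial.aeval r B) *
          Polynomial.aeval r B := by
          rw [h2]
          ring
      _ = _ := by
          rw [h5]
          ring

end Pool.Agent.H64.BF
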