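import Pool.Agent.H64.BF.MPA

/-!
# MP_70ba79_ag: an algebraic solution of `b' = Θ b + 1` gives a rational one
-/

set_option autoImplicit false

namespace Pool.Agent.H64.BF

open MvPolynomial SC Pool.Agent.H27.LV Pool.Agent.H92.BF

theorem pf_MPB : T_MPB := by
  intro k K _ _ _ _ δ r b U V hr hal hV h
  have hsi : IsIntegral (IntermediateField.adjoin k {r}) b := (hal.isAlgebraic b).isIntegral
  let D : IntermediateField.adjoin k {r} → IntermediateField.adjoin k {r} :=
    fun l => ⟨δ l, mem_L δ r hr l l.2⟩
  have hrel := coeff_rel δ b hsi D (fun l => rfl) ⟨Polynomial.aeval r V, ev_mem r V⟩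
    ⟨Polynomial.aeval r U, ev_mem r U⟩ ⟨Polynomial.aeval r V, ev_mem r V⟩ h
    ((minpoly (IntermediateField.adjoin k {r}) b).natDegree - 1) (Nat.sub_le _ _)
  set p := minpoly (IntermediateField.adjoin k {r}) b with hp
  have hN : 1 ≤ p.natDegree := minpoly.natDegree_pos hsi
  have hmon : p.Monic := minpoly.monic hsi
  obtain ⟨M, hM⟩ : ∃ M, p.natDegree = M + 1 := ⟨p.natDegree - 1, by omega⟩
  have hp1 : p.coeff (M + 1) = 1 := by
    rw [← hM]
    exact hmon
  rw [hM, Nat.add_sub_cancel, hp1] at hrel
  have e2 := congrArg (algebraMap (IntermediateField.adjoin k {r}) K) hrel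
  simp only [map_add, map_mul, map_natCast, map_one, mul_one] at e2
  set c : K := (p.coeff M : K) with hc
  have e3 : Polynomial.aeval r V * δ c + (M : K) * Polynomial.aeval r U * c +
      ((M : K) + 1) * Polynomial.aeval r V = ((M + 1 : ℕ) : K) * Polynomial.aeval r U * c := e2
  haveI : CharZero K := charZero_of_injective_algebraMap (algebraMap k K).injective
  have hM1 : ((M : K) + 1) ≠ 0 := by exact_mod_cast Nat.succ_ne_zero M
  obtain ⟨b0, hb0, hb0m⟩ : ∃ b0 : K, c = -(((M : K) + 1) * b0) ∧
      b0 ∈ IntermediateField.adjoin k {r} := by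
    refine ⟨-c / ((M : K) + 1), by field_simp, ?_⟩
    refine div_mem (neg_mem (p.coeff M).2) ?_
    have : ((M : K) + 1) = algebraMap k K ((M : k) + 1) := by simp
    rw [this]
    exact IntermediateField.algebraMap_mem _ _
  have hdc : δ c = -(((M : K) + 1) * δ b0) := by
    rw [hb0, map_neg, δ.leibniz]
    have : ((M : K) + 1) = algebraMap k K ((M : k) + 1) := by simp
    rw [this, δ.map_algebraMap, smul_zero, add_zero, smul_eq_mul]
  have e4 : Polynomial.aeval r V * δ b0 =
      Polynomial.aeval r U * b0 + Polynomial.aeval r V := by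
    apply mul_left_cancel₀ hM1
    rw [hdc, hb0] at e3
    push_cast at e3
    linear_combination -e3
  obtain ⟨A, B, hAB, hB⟩ : ∃ A B : Polynomial k,
      b0 = Polynomial.aeval r A / Polynomial.aeval r B ∧ Polynomial.aeval r B ≠ 0 := by
    obtain ⟨A, B, hAB⟩ := (IntermediateField.mem_adjoin_simple_iff k b0).1 hb0m
    by_cases hB : Polynomial.aeval r B = 0
    · exact ⟨0, 1, by rw [hAB, hB, div_zero, map_zero, zero_div], by
        rw [map_one]
        exact one_ne_zero⟩
    · exact ⟨A, B, hAB, hB⟩
  refine ⟨A, B, ?_, ?_⟩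
  · rintro rfl
    exact hB (map_zero _)
  · unfold IdB
    apply ident δ r hr
    have h4 := der_quot δ r hr A B hB
    rw [← hAB] at h4
    rw [map_mul, ← h4]
    simp only [map_add, map_mul, map_pow]
    have h5 : b0 * Polynomial.aeval r B = Polynomial.aeval r A := by
      rw [hAB]
      field_simp
    calc _ = (Polynomial.aeval r V * δ b0) * Polynomial.aeval r B ^ 2 := by ring
      _ = Polynomial.aeval r U * (b0 * Polynomial.aeval r B) * Polynomial.aeval r B +
          Polynomial.aeval r V * Polynomial.aeval r B ^ 2 := by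
          rw [e4]
          ring
      _ = _ := by
          rw [h5]

end Pool.Agent.H64.BF
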